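import Pool.Agent.helper64.QF.Spec

/-! pq:SIC (MP_b9b9c0_an), helper43. -/

set_option autoImplicit false

namespace Pool.Agent.helper64.QF

open Metric MeasureTheory Set Filter Topology
open Pool.Agent.helper37.PR

/-- near extremal element of the class -/
theorem SIC_ex (hSEP : SEP_stmt) (hPSC : PSC_stmt) (hPP2 : PP2_stmt) (n : ℕ) (A : E n →L[ℂ] E n) (m : ℝ)
    (hm : 0 < m) (hlow : ∀ x : E n, m * ‖x‖ ^ 2 ≤ qA A x) (U V : E n) (hU : U ≠ 0) (hV : V ≠ 0) (c : ℝ)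
    (hc : c < sig A U V) : ∃ h : E n → E n, IsCara A h ∧ c ≤ -((inner ℂ V (P2 h U) : ℂ).re) := by
  obtain ⟨p, h1, h2, h3, h4⟩ := hSEP n A m hm hlow U V hU hV c hc
  refine ⟨pm p, hPSC n A p h1 h2 h3, ?_⟩
  obtain ⟨-, -, -, h5⟩ := hPP2 n p h1
  rw [h5 U]
  exact h4

theorem SIC_diff (hSEP : SEP_stmt) (hPSC : PSC_stmt) (hPP2 : PP2_stmt) (hSUP : SUP_stmt) (hSG0 : SG0_stmt)
    (hPLI : PLI_stmt) (n : ℕ) (A : E n →L[ℂ] E n) (m : ℝ)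
    (hm : 0 < m) (hlow : ∀ x : E n, m * ‖x‖ ^ 2 ≤ qA A x) (U V U' V' : E n) :
    sig A U V - sig A U' V' ≤
      4 * ‖A‖ * (‖U‖ ^ 2 * ‖V - V'‖ + ‖V'‖ * ((‖U‖ + ‖U'‖) * ‖U - U'‖)) := by
  have hq : ∀ x : E n, 0 ≤ qA A x := fun x => le_trans (by positivity) (hlow x)
  obtain ⟨g0, -, -, -, g4, g5, -⟩ := hSG0 n A hq
  have hR : 0 ≤ 4 * ‖A‖ * (‖U‖ ^ 2 * ‖V - V'‖ + ‖V'‖ * ((‖U‖ + ‖U'‖) * ‖U - U'‖)) := by positivity
  by_cases hU : U = 0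
  · have e1 : sig A U V = 0 := by rw [hU]; exact g4 V
    have e2 := g0 U' V'
    linarith
  by_cases hV : V = 0
  · have e1 : sig A U V = 0 := by rw [hV]; exact g5 U
    have e2 := g0 U' V'
    linarith
  apply le_of_forall_pos_le_add
  intro e he
  obtain ⟨h, hc, hb⟩ := SIC_ex hSEP hPSC hPP2 n A m hm hlow U V hU hV (sig A U V - e) (by linarith)
  obtain ⟨p1, p2⟩ := hPLI n A h hc
  have hs := hSUP n A h hc hq U' V'
  have k1 : -((inner ℂ V' (P2 h U') : ℂ).re) ≤ ‖(inner ℂ V' (P2 h U') : ℂ)‖ :=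
    le_trans (neg_le_abs _) (Complex.abs_re_le_norm _)
  have k2 : (inner ℂ V (P2 h U) : ℂ) - inner ℂ V' (P2 h U') =
      inner ℂ (V - V') (P2 h U) + inner ℂ V' (P2 h U - P2 h U') := by
    rw [inner_sub_left, inner_sub_right]
    ring
  have k3 : -((inner ℂ V (P2 h U) : ℂ).re) + (inner ℂ V' (P2 h U') : ℂ).re ≤
      ‖(inner ℂ V (P2 h U) : ℂ) - inner ℂ V' (P2 h U')‖ := by
    have := Complex.abs_re_le_norm ((inner ℂ V (P2 h U) : ℂ) - inner ℂ V' (P2 h U'))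
    rw [Complex.sub_re] at this
    have h6 := neg_le_abs ((inner ℂ V (P2 h U) : ℂ).re - (inner ℂ V' (P2 h U') : ℂ).re)
    linarith
  have k4 : ‖(inner ℂ V (P2 h U) : ℂ) - inner ℂ V' (P2 h U')‖ ≤
      ‖V - V'‖ * (4 * ‖A‖ * ‖U‖ ^ 2) + ‖V'‖ * (4 * ‖A‖ * ((‖U‖ + ‖U'‖) * ‖U - U'‖)) := by
    rw [k2]
    refine (norm_add_le _ _).trans ?_
    apply add_le_add
    · exact (norm_inner_le_norm _ _).trans (mul_le_mul_of_nonneg_left (p1 U) (norm_nonneg _))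
    · exact (norm_inner_le_norm _ _).trans (mul_le_mul_of_nonneg_left (p2 U U') (norm_nonneg _))
  have k5 : ‖V - V'‖ * (4 * ‖A‖ * ‖U‖ ^ 2) + ‖V'‖ * (4 * ‖A‖ * ((‖U‖ + ‖U'‖) * ‖U - U'‖)) =
      4 * ‖A‖ * (‖U‖ ^ 2 * ‖V - V'‖ + ‖V'‖ * ((‖U‖ + ‖U'‖) * ‖U - U'‖)) := by ring
  linarith

theorem SIC (hSEP : SEP_stmt) (hPSC : PSC_stmt) (hPP2 : PP2_stmt) (hSUP : SUP_stmt) (hSG0 : SG0_stmt)
    (hPLI : PLI_stmt) : SIC_stmt := by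
  intro n A m hm hlow
  have hq : ∀ x : E n, 0 ≤ qA A x := fun x => le_trans (by positivity) (hlow x)
  obtain ⟨g0, -, -, -, g4, g5, -⟩ := hSG0 n A hq
  refine ⟨?_, ?_⟩
  · rw [continuous_iff_continuousAt]
    rintro ⟨U, V⟩
    have hD := SIC_diff hSEP hPSC hPP2 hSUP hSG0 hPLI n A m hm hlow
    have hG : Continuous (fun q : E n × E n =>
        4 * ‖A‖ * (‖U‖ ^ 2 * ‖V - q.2‖ + ‖q.2‖ * ((‖U‖ + ‖q.1‖) * ‖U - q.1‖)) +
        4 * ‖A‖ * (‖q.1‖ ^ 2 * ‖q.2 - V‖ + ‖V‖ * ((‖q.1‖ + ‖U‖) * ‖q.1 - U‖))) := by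
      fun_prop
    have hG0 := hG.tendsto (U, V)
    simp only [sub_self, norm_zero, mul_zero, add_zero] at hG0
    rw [ContinuousAt, tendsto_iff_norm_sub_tendsto_zero]
    refine squeeze_zero (fun q => norm_nonneg _) (fun q => ?_) hG0
    have h1 := hD U V q.1 q.2
    have h2 := hD q.1 q.2 U V
    have r1 : 0 ≤ 4 * ‖A‖ * (‖U‖ ^ 2 * ‖V - q.2‖ + ‖q.2‖ * ((‖U‖ + ‖q.1‖) * ‖U - q.1‖)) := by positivity
    have r2 : 0 ≤ 4 * ‖A‖ * (‖q.1‖ ^ 2 * ‖q.2 - V‖ + ‖V‖ * ((‖q.1‖ + ‖U‖) * ‖q.1 - U‖)) := by positivity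
    rw [Real.norm_eq_abs, abs_le]
    constructor
    · linarith
    · linarith
  · intro U V
    refine ⟨g0 U V, ?_⟩
    have hR : 0 ≤ 4 * ‖A‖ * ‖U‖ ^ 2 * ‖V‖ := by positivity
    by_cases hU : U = 0
    · have e1 : sig A U V = 0 := by rw [hU]; exact g4 V
      linarith
    by_cases hV : V = 0
    · have e1 : sig A U V = 0 := by rw [hV]; exact g5 U
      linarith
    apply le_of_forall_pos_le_add
    intro e he
    obtain ⟨h, hc, hb⟩ := SIC_ex hSEP hPSC hPP2 n A m hm hlow U V hU hV (sig A U V - e) (by linarith)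
    obtain ⟨p1, -⟩ := hPLI n A h hc
    have k1 : -((inner ℂ V (P2 h U) : ℂ).re) ≤ ‖(inner ℂ V (P2 h U) : ℂ)‖ :=
      le_trans (neg_le_abs _) (Complex.abs_re_le_norm _)
    have k2 : ‖(inner ℂ V (P2 h U) : ℂ)‖ ≤ ‖V‖ * (4 * ‖A‖ * ‖U‖ ^ 2) :=
      (norm_inner_le_norm _ _).trans (mul_le_mul_of_nonneg_left (p1 U) (norm_nonneg _))
    have k3 : ‖V‖ * (4 * ‖A‖ * ‖U‖ ^ 2) = 4 * ‖A‖ * ‖U‖ ^ 2 * ‖V‖ := by ring
    linarith

end Pool.Agent.helper64.QF
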